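import Pool.Agent.X109.MC.Proj

/-!
`MP_c7d282_an`, Q2: a projection of a closed bounded matrix convex set that is the matrix convex hull
of its free extreme points need not be the matrix convex hull of its own free extreme points.

The set is the free spectrahedron of the (coordinates of the) self-adjoint contractions in
`M_3(M_n)`, the projection keeps the coordinates of the blocks `(0, 1)` and `(0, 2)`: it is the set of
all row contractions `(B_1, B_2)`, and it has no free extreme point at all.
-/

set_option autoImplicit false

namespace Pool.Agent.Results.MP_c7d282_an.ProjectionWithoutFreeExtreme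

open Pool.Agent.X109.MC
open scoped ComplexOrder

theorem result :
    ∃ (g h d : ℕ) (A : Tup g (Fin d)) (e : Fin h ↪ Fin g), h < g ∧ (∀ j, (A j).IsHermitian) ∧
      IsCompactConvex (spec A) ∧
      (∀ n, 0 < n → spec A n = mconv (freeExt (spec A)) n) ∧
      ∀ n, 0 < n → (proj e (spec A) n).Nonempty ∧ freeExt (proj e (spec A)) n = ∅ ∧
        mconv (freeExt (proj e (spec A))) n = ∅ := by
  have hK : K = spec A := funext K_spec
  refine ⟨9, 4, 6, A, e, by norm_num, A_herm, ?_, ?_, ?_⟩
  · rw [← hK]; exact K_compactConvex
  · rw [← hK]; exact K_eq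
  · rw [← hK]
    intro n hn
    have hne : ∀ m, freeExt (proj e K) m = ∅ := fun m =>
      Set.eq_empty_of_forall_notMem fun _ hZ => no_free hZ
    refine ⟨⟨_, 0, ⟨fun c => ?_, ?_, ?_⟩, rfl⟩, hne n, ?_⟩
    · exact Matrix.isHermitian_zero
    · have : T (0 : Tup 9 (Fin n)) = 0 := by simp [T]
      rw [this, sub_zero]; exact Matrix.PosSemidef.one
    · have : T (0 : Tup 9 (Fin n)) = 0 := by simp [T]
      rw [this, add_zero]; exact Matrix.PosSemidef.one
    · refine Set.eq_empty_of_forall_notMem ?_
      rintro X ⟨ι, _, s, Y, V, hY, h1, -⟩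
      have : IsEmpty ι := ⟨fun i => by
        have := (hY i).2
        rw [hne] at this
        exact this⟩
      rw [Finset.univ_eq_empty, Finset.sum_empty] at h1
      have := congrFun (congrFun h1 ⟨0, hn⟩) ⟨0, hn⟩
      simp at this

end Pool.Agent.Results.MP_c7d282_an.ProjectionWithoutFreeExtreme
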